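import Mathlib

set_option autoImplicit false

namespace Pool.Agent.Results.MP_633bfc_co.Complement

open Finset MvPolynomial Classical

variable {V : Type} [Fintype V]

/-- edges with exactly one endpoint in `W` -/
noncomputable def bd (G : SimpleGraph V) (W : Finset V) : Finset (Sym2 V) :=
  univ.filter fun e => e ∈ G.edgeSet ∧ ∃ a ∈ W, ∃ b ∉ W, e = s(a, b)

/-- vertices outside `W` joined to a vertex of `W` by an edge of `F` -/
noncomputable def nb (W : Finset V) (F : Finset (Sym2 V)) : Finset V :=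
  univ.filter fun v => v ∉ W ∧ ∃ a ∈ W, s(a, v) ∈ F

/-- the bipartition polynomial in `x = X 0`, `y = X 1`, `z = X 2` -/
noncomputable def B (G : SimpleGraph V) : MvPolynomial (Fin 3) ℤ :=
  ∑ W : Finset V, X 0 ^ W.card * ∑ F ∈ (bd G W).powerset, X 1 ^ (nb W F).card * X 2 ^ F.card

noncomputable def e (G : SimpleGraph V) (W T : Finset V) : ℕ := ((W ×ˢ T).filter fun p => G.Adj p.1 p.2).card

noncomputable def R (G : SimpleGraph V) (k : ℕ) (u t : ℝ) : ℝ :=
  ∑ W ∈ univ.filter fun W : Finset V => W.card = k, ∑ T ∈ Wᶜ.powerset, u ^ T.card * t ^ e G W T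

lemma R_compl (G : SimpleGraph V) (k : ℕ) (u : ℝ) {t : ℝ} (ht : t ≠ 0) :
    R G k u t = R Gᶜ k (u * t ^ k) t⁻¹ := by
  refine sum_congr rfl fun W hW => sum_congr rfl fun T hT => ?_
  have : e G W T + e Gᶜ W T = k * T.card := by
    rw [← (mem_filter.1 hW).2, ← card_product, ← card_filter_add_card_filter_not (fun p => G.Adj p.1 p.2)]
    refine congrArg _ (congrArg card (ext fun p => ?_))
    simp only [mem_filter]
    refine and_congr_right fun hp => ?_
    have : p.1 ≠ p.2 := fun h => mem_compl.1 (mem_powerset.1 hT (mem_product.1 hp).2) (h ▸ (mem_product.1 hp).1)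
    simp [this]
  rw [mul_pow, ← pow_mul, ← this, inv_pow, pow_add]
  field_simp

lemma inner (G : SimpleGraph V) (W : Finset V) {y : ℝ} (hy : y ≠ 1) (z : ℝ) :
    ∑ F ∈ (bd G W).powerset, y ^ (nb W F).card * z ^ F.card =
    (1 - y) ^ (Fintype.card V - W.card) * ∑ T ∈ Wᶜ.powerset, (y / (1 - y)) ^ T.card * (1 + z) ^ e G W T := by
  have h1 : ∀ F, y ^ (nb W F).card = ∑ T ∈ Wᶜ.powerset, y ^ T.card * (1 - y) ^ (Wᶜ \ T).card *
      if nb W F ⊆ T then 1 else 0 := fun F => by
    have : y ^ (nb W F).card = ∏ v ∈ Wᶜ, (y + (1 - y) * if v ∈ nb W F then 0 else 1) := by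
      rw [← prod_const, ← prod_subset (s₁ := nb W F) (fun v hv => mem_compl.2 (mem_filter.1 hv).2.1)
        fun v _ hv => by simp [hv]]
      exact prod_congr rfl fun v hv => by simp [hv]
    rw [this, prod_add]
    refine sum_congr rfl fun T _ => ?_
    rw [prod_const, prod_mul_distrib, prod_const, mul_assoc]
    congr 2
    split_ifs with h
    · exact prod_eq_one fun v hv => if_neg fun h' => (mem_sdiff.1 hv).2 (h h')
    · obtain ⟨v, h1, h2⟩ := not_subset.1 h
      exact prod_eq_zero (mem_sdiff.2 ⟨mem_compl.2 (mem_filter.1 h1).2.1, h2⟩) (if_pos h1)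
  simp only [h1, sum_mul]
  rw [sum_comm, mul_sum]
  refine sum_congr rfl fun T hT => ?_
  have hT := mem_powerset.1 hT
  have h2 : ∑ F ∈ (bd G W).powerset, (if nb W F ⊆ T then 1 else 0) * z ^ F.card = (1 + z) ^ e G W T := by
    have inj : Set.InjOn (fun p : V × V => s(p.1, p.2)) ((W ×ˢ T).filter fun p => G.Adj p.1 p.2) := by
      intro p hp q hq h
      rcases Sym2.eq_iff.1 h with h | h
      · exact Prod.ext h.1 h.2
      · exact (mem_compl.1 (hT (mem_product.1 (mem_filter.1 hq).1).2)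
          (h.1 ▸ (mem_product.1 (mem_filter.1 hp).1).1)).elim
    rw [e, ← card_image_of_injOn inj, add_comm, ← sum_pow_mul_eq_add_pow]
    simp only [ite_mul, one_mul, zero_mul, one_pow, mul_one, ← sum_filter]
    refine sum_congr (ext fun F => ?_) fun _ _ => rfl
    simp only [mem_filter, mem_powerset]
    constructor
    · rintro ⟨h1, h2⟩ f hf
      obtain ⟨-, h3, a, ha, b, hb, rfl⟩ := mem_filter.1 (h1 hf)
      exact mem_image.2 ⟨(a, b), mem_filter.2 ⟨mem_product.2 ⟨ha, h2 (mem_filter.2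
        ⟨mem_univ _, hb, a, ha, hf⟩)⟩, h3⟩, rfl⟩
    · refine fun h => ⟨fun f hf => ?_, fun v hv => ?_⟩
      · obtain ⟨p, hp, rfl⟩ := mem_image.1 (h hf)
        obtain ⟨h1, h2⟩ := mem_filter.1 hp
        exact mem_filter.2 ⟨mem_univ _, h2, _, (mem_product.1 h1).1, _,
          mem_compl.1 (hT (mem_product.1 h1).2), rfl⟩
      · obtain ⟨-, h1, a, -, h2⟩ := mem_filter.1 hv
        obtain ⟨p, hp, h3⟩ := mem_image.1 (h h2)
        have := mem_product.1 (mem_filter.1 hp).1
        rcases Sym2.eq_iff.1 h3 with h | h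
        exacts [h.2 ▸ this.2, (h1 (h.1 ▸ this.1)).elim]
  simp only [mul_assoc, ← mul_sum, h2]
  rw [← card_compl, ← card_sdiff_add_card_eq_card hT, div_pow, pow_add]
  have := sub_ne_zero.2 hy.symm
  field_simp

noncomputable def P (G : SimpleGraph V) (y z : ℝ) : Polynomial ℝ := ∑ k ∈ range (Fintype.card V + 1),
  Polynomial.monomial k ((1 - y) ^ (Fintype.card V - k) * R G k (y / (1 - y)) (1 + z))

lemma ev (G : SimpleGraph V) (v : Fin 3 → ℝ) (hy : v 1 ≠ 1) : eval v (map (Int.castRingHom ℝ) (B G)) =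
    (P G (v 1) (v 2)).eval (v 0) := by
  simp only [B, P, map_sum, map_mul, map_pow, map_X, eval_X, inner G _ hy]
  simp only [Polynomial.eval_finsetSum, Polynomial.eval_monomial, R, mul_sum, sum_mul]
  rw [← sum_fiberwise_of_maps_to (s := univ) (t := range (Fintype.card V + 1)) (g := card)
    fun W _ => mem_range.2 (Nat.lt_succ_of_le (card_le_univ W))]
  exact sum_congr rfl fun k _ => sum_congr rfl fun W hW => sum_congr rfl fun T _ => by
    rw [(mem_filter.1 hW).2]; ring

theorem result (V W : Type) [Fintype V] [Fintype W] (G : SimpleGraph V) (H : SimpleGraph W)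
    (h : B Gᶜ = B Hᶜ) : B G = B H := by
  have hn : Fintype.card V = Fintype.card W := by
    have := congrArg (eval ![1, 1, 0]) h
    simp only [B, map_sum, map_mul, map_pow, eval_X] at this
    simpa [zero_pow_eq, sum_ite_eq'] using this
  have key : ∀ k ∈ range (Fintype.card W + 1), ∀ u > 0, ∀ t, R Gᶜ k u t = R Hᶜ k u t := fun k hk u hu t => by
    have y1 : u / (1 + u) ≠ 1 := by rw [Ne, div_eq_one_iff_eq (by positivity)]; linarith
    have := congrArg (Polynomial.coeff · k) (Polynomial.funext (p := P Gᶜ (u / (1 + u)) (t - 1))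
      (q := P Hᶜ (u / (1 + u)) (t - 1)) fun x =>
      (ev Gᶜ ![x, u / (1 + u), t - 1] y1).symm.trans (h ▸ ev Hᶜ ![x, u / (1 + u), t - 1] y1))
    simp only [P, Polynomial.finsetSum_coeff, Polynomial.coeff_monomial, sum_ite_eq', hn, hk, if_true] at this
    have := mul_left_cancel₀ (pow_ne_zero _ (sub_ne_zero.2 y1.symm)) this
    have e : u / (1 + u) / (1 - u / (1 + u)) = u := by field_simp; simp
    simpa [e] using this
  refine map_injective (Int.castRingHom ℝ) Int.cast_injective
    (funext_set (fun _ => Set.Ioo 0 1) (fun _ => Set.Ioo_infinite one_pos) fun v hv => ?_)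
  have h1 := hv 1 trivial
  have h2 := hv 2 trivial
  have := sub_pos.2 h1.2
  have t0 : 0 < 1 + v 2 := by linarith [h2.1]
  rw [ev G v h1.2.ne, ev H v h1.2.ne, P, P, hn]
  refine congrArg _ (sum_congr rfl fun k hk => ?_)
  rw [R_compl G k _ t0.ne', R_compl H k _ t0.ne', key k hk _ (by have := h1.1; positivity)]

end Pool.Agent.Results.MP_633bfc_co.Complement
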